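import Pool.Agent.TH705.RR.TubC

set_option autoImplicit false

/-!
# The Kakeya inequality in tube form for all translates after one random isometry

Work in `ℝ^n = ℝ^d × ℝ`, `n = d + 1 ≥ 3`, with its Euclidean norm (`Space d`), and let `P` be the
paraboloid `{(ω, |ω|²)}`, `|ω| ≤ 1`.  The box dual to the cap at `ω` is `box N (nor ω) f 0`: its long
side `N²` is in the direction of the unit normal `nor ω = (-2ω, 1)/√(1+4|ω|²)` and its other sides `N`
are in the directions of an arbitrary orthonormal frame `f` of the orthogonal complement.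

For EVERY choice of the translates `a i`, the inequality of Q1 holds, for all `p` in `[1, ∞]`, for
the translates `g (a i)`, where `g` is ONE random linear isometry, outside small events.
-/

open MeasureTheory Set ENNReal

namespace Pool.Agent.Results.MP_ac5134_an.RotatedTranslates

open Pool.Agent.H810R3.Tub

/-- The caps have centres `ω i` in the closed unit ball, `σ/N`-separated and at least `κ N^d` in
number, and `f i` is an orthonormal frame of the orthogonal complement of the normal at `ω i`. -/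
def Caps {d : ℕ} {ι : Type} [Fintype ι] (σ κ N : ℝ) (ω : ι → Vec d) (f : ι → Fin d → Space d) : Prop :=
  (∀ i, ‖ω i‖ ≤ 1) ∧ (∀ i j, i ≠ j → σ / N ≤ ‖ω i - ω j‖) ∧ κ * N ^ d ≤ (Fintype.card ι : ℝ) ∧
    ∀ i, Orthonormal ℝ (Fin.cons (nor (ω i)) (f i) : Fin (d + 1) → Space d)

/-- The sum of the indicators of the boxes of the caps with centres `a i`. -/
noncomputable def boxSum {d : ℕ} {ι : Type} [Fintype ι] (N : ℝ) (ω : ι → Vec d)
    (f : ι → Fin d → Space d) (a : ι → Space d) (y : Space d) : ℝ :=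
  ∑ i, (box N (nor (ω i)) (f i) (a i)).indicator (fun _ => (1 : ℝ)) y

/-- The inequality of Q1 with the constant `C` at the exponent `p`, for the boxes with centres `a i`. -/
def Ineq {d : ℕ} {ι : Type} [Fintype ι] (C N : ℝ) (p : ℝ≥0∞) (ω : ι → Vec d)
    (f : ι → Fin d → Space d) (a : ι → Space d) : Prop :=
  eLpNorm (boxSum N ω f a) p volume ≤ ENNReal.ofReal C * eLpNorm (boxSum N ω f 0) p volume

/-- The inequality of Q1 for all exponents: with the constant `C N^ε` for all `p` in `[1, ∞]`, and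
with the constant `C`, without loss, for all `p` in `[q, ∞]`. -/
def All {d : ℕ} {ι : Type} [Fintype ι] (q ε C N : ℝ) (ω : ι → Vec d) (f : ι → Fin d → Space d)
    (a : ι → Space d) : Prop :=
  ∀ p : ℝ≥0∞, (1 ≤ p → Ineq (C * N ^ ε) N p ω f a) ∧ (ENNReal.ofReal q ≤ p → Ineq C N p ω f a)

/-- The linear isometries of `ℝ^n` (as a group: the orthogonal group). -/
abbrev Iso (d : ℕ) : Type := Space d ≃ₗᵢ[ℝ] Space d

/-- The image `g v` of the vector `v` under the isometry `g`. -/
noncomputable def ap {d : ℕ} (g : Iso d) (v : Space d) : Space d := g v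

/-- The family of centres `a` moved by `g`. -/
noncomputable def move {d : ℕ} {ι : Type} (g : Iso d) (a : ι → Space d) : ι → Space d :=
  fun i => ap g (a i)

/-- `g` is a measurable family of isometries (a random isometry). -/
def Random {d : ℕ} {Ω : Type} [MeasurableSpace Ω] (g : Ω → Iso d) : Prop :=
  ∀ v : Space d, Measurable (fun x => ap (g x) v)

/-- The law of the image `g v` of every unit vector `v` under the random isometry `g` has dimension
at least `α`, uniformly, with constant `A`. -/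
def Spread {d : ℕ} {Ω : Type} [MeasurableSpace Ω] (P : Measure Ω) (g : Ω → Iso d) (A α : ℝ) : Prop :=
  ∀ v w : Space d, ‖v‖ = 1 → ‖w‖ = 1 → ∀ s : ℝ, 0 < s →
    P {x | ‖ap (g x) v - w‖ ≤ s} ≤ ENNReal.ofReal (A * s ^ α)

/-- `ρ` is an action of the group `G` by linear isometries. -/
def Action {d : ℕ} {G : Type} [Group G] (ρ : G → Iso d) : Prop :=
  ∀ (k l : G) (v : Space d), ap (ρ (k * l)) v = ap (ρ k) (ap (ρ l) v)

/-- `ρ` is continuous in `k` and transitive on the unit sphere. -/
def Transitive {d : ℕ} {G : Type} [TopologicalSpace G] (ρ : G → Iso d) : Prop :=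
  (∀ v : Space d, Continuous (fun k => ap (ρ k) v)) ∧
    ∀ v w : Space d, ‖v‖ = 1 → ‖w‖ = 1 → ∃ k, ap (ρ k) v = w

/-- **With large probability**: for ALL configurations of caps and ALL translates, outside an event
of probability `η`, the inequality holds for all exponents, for the translates moved by `g`, with the
constant `K η`. -/
def ForMost {d : ℕ} {Ω : Type} [MeasurableSpace Ω] (P : Measure Ω) (g : Ω → Iso d)
    (σ κ q ε : ℝ) (K : ℝ → ℝ) : Prop :=
  ∀ N : ℝ, 1 ≤ N → ∀ (ι : Type) [Fintype ι] (ω : ι → Vec d) (f : ι → Fin d → Space d),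
    Caps σ κ N ω f → ∀ (a : ι → Space d) (η : ℝ), 0 < η → η ≤ 1 →
      P {x | ¬ All q ε (K η) N ω f (move (g x) a)} ≤ ENNReal.ofReal η

/-- **Almost surely for a whole sequence**: for every sequence of configurations and translates (for
instance for `N = 2^j`), for almost every `g` the inequality holds for all exponents, for all members
of the sequence, for the translates moved by `g`, with the constant `K (B / (j+1)²)`. -/
def AlmostSurely {d : ℕ} {Ω : Type} [MeasurableSpace Ω] (P : Measure Ω) (g : Ω → Iso d)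
    (σ κ q ε : ℝ) (K : ℝ → ℝ) : Prop :=
  ∀ (N : ℕ → ℝ) (m : ℕ → ℕ) (ω : (j : ℕ) → Fin (m j) → Vec d)
    (f : (j : ℕ) → Fin (m j) → Fin d → Space d), (∀ j, 1 ≤ N j ∧ Caps σ κ (N j) (ω j) (f j)) →
    ∀ a : (j : ℕ) → Fin (m j) → Space d, ∀ᵐ x ∂P, ∃ B : ℝ, 0 < B ∧ ∀ j : ℕ,
      All q ε (K (B / ((j : ℝ) + 1) ^ 2)) (N j) (ω j) (f j) (move (g x) (a j))

/-- **The Kakeya inequality in tube form for all translates, after one random isometry.** -/
theorem result (d : ℕ) (hd : 2 ≤ d) (σ κ : ℝ) (hσ : 0 < σ) (hσ1 : σ ≤ 1) (hκ : 0 < κ) :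
    -- (1) random isometries whose law has dimension `α > 1`
    (∀ α q : ℝ, 1 < α → α ≤ d → 1 + 1 / α < q → ∃ C : ℝ, 0 < C ∧ ∀ A : ℝ, 0 ≤ A →
      ∀ (Ω : Type) [MeasurableSpace Ω] (P : Measure Ω) [IsProbabilityMeasure P] (g : Ω → Iso d),
      Random g → Spread P g A α →
      ForMost P g σ κ q (d - (d + 1) / q) (fun η => (C * (1 + A) / η) ^ (1 / q)) ∧
      AlmostSurely P g σ κ q (d - (d + 1) / q) (fun η => (C * (1 + A) / η) ^ (1 / q))) ∧
    -- (2) compact groups acting transitively on the unit sphere, for instance `O(n)` or `SO(n)`,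
    -- with the normalised Haar measure: loss `N^ε` only, and none for `p ≥ n/(n-1) + ε`
    (∀ ε : ℝ, 0 < ε → ∃ C : ℝ, 0 < C ∧
      ∀ (G : Type) [Group G] [TopologicalSpace G] [IsTopologicalGroup G] [CompactSpace G]
      [MeasurableSpace G] [BorelSpace G] (μ : Measure G) [μ.IsHaarMeasure] [IsProbabilityMeasure μ]
      (ρ : G → Iso d), Action ρ → Transitive ρ →
      ForMost μ ρ σ κ (1 + 1 / d + ε) ε (fun η => C / η) ∧
      AlmostSurely μ ρ σ κ (1 + 1 / d + ε) ε (fun η => C / η)) ∧
    -- (3) in particular (from `O(n)`): for every configuration and all translates there is an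
    -- isometry with the inequality for the moved translates, with a fixed constant
    (∀ ε : ℝ, 0 < ε → ∃ C : ℝ, 0 < C ∧ ∀ N : ℝ, 1 ≤ N → ∀ (ι : Type) [Fintype ι] (ω : ι → Vec d)
      (f : ι → Fin d → Space d), Caps σ κ N ω f → ∀ a : ι → Space d,
      ∃ g : Iso d, All (1 + 1 / d + ε) ε C N ω f (move g a)) := by
  have hd2 : (2 : ℝ) ≤ d := by exact_mod_cast hd
  -- from large probability to sequences
  have hAS : ∀ (Ω : Type) [MeasurableSpace Ω] (P : Measure Ω) (g : Ω → Iso d) (q ε : ℝ)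
      (K : ℝ → ℝ), ForMost P g σ κ q ε K → AlmostSurely P g σ κ q ε K := by
    intro Ω _ P g q ε K h N m ω f hc a
    have h1 := TH705.RR.level (P := P)
      (fun j η => {x | ¬ All q ε (K η) (N j) (ω j) (f j) (move (g x) (a j))})
      (fun j η hη hη1 => h (N j) (hc j).1 (Fin (m j)) (ω j) (f j) (hc j).2 (a j) η hη hη1)
    filter_upwards [h1] with x hx
    obtain ⟨k, hk⟩ := hx
    refine ⟨1 / ((k : ℝ) + 1), by positivity, ?_⟩
    intro j
    have h2 := hk j
    simp only [mem_ofPred_eq, not_not] at h2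
    rw [div_div]
    exact h2
  have h1 : ∀ α q : ℝ, 1 < α → α ≤ d → 1 + 1 / α < q → ∃ C : ℝ, 1 ≤ C ∧ ∀ A : ℝ, 0 ≤ A →
      ∀ (Ω : Type) [MeasurableSpace Ω] (P : Measure Ω) [IsProbabilityMeasure P] (g : Ω → Iso d),
      Random g → Spread P g A α →
      ForMost P g σ κ q (d - (d + 1) / q) (fun η => (C * (1 + A) / η) ^ (1 / q)) := by
    intro α q hα hαd hq
    obtain ⟨C, hC, H⟩ := TH705.RR.tub_most hd hσ hσ1 hκ hα hαd hq
    refine ⟨C, hC, ?_⟩
    intro A hA Ω _ P _ g hg hsp N hN ι _ ω f hc a η hη hη1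
    obtain ⟨hω, hsep, hcard, hf⟩ := hc
    refine le_trans (measure_mono ?_) (H A hA Ω P g hg hsp N hN ι ω f hω hsep hcard hf a η hη hη1)
    intro x hx
    simp only [mem_ofPred_eq] at hx ⊢
    intro hcon
    apply hx
    intro p
    exact ⟨hcon.1 p, hcon.2 p⟩
  have h2 : ∀ ε : ℝ, 0 < ε → ∃ C : ℝ, 0 < C ∧
      ∀ (G : Type) [Group G] [TopologicalSpace G] [IsTopologicalGroup G] [CompactSpace G]
      [MeasurableSpace G] [BorelSpace G] (μ : Measure G) [μ.IsHaarMeasure] [IsProbabilityMeasure μ]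
      (ρ : G → Iso d), Action ρ → Transitive ρ →
      ForMost μ ρ σ κ (1 + 1 / d + ε) ε (fun η => C / η) := by
    intro ε hε
    obtain ⟨q, hq1, hq2, hq3, hq4⟩ := TH705.RR.expo hd hε
    obtain ⟨C, hC, H⟩ := h1 d q (by linarith) le_rfl hq1
    have hq0 : 1 < q := by
      have : 0 < 1 / (d : ℝ) := by positivity
      linarith
    refine ⟨C * (1 + 5 * 2 ^ (d + 1)), by positivity, ?_⟩
    intro G _ _ _ _ _ _ μ _ _ ρ hact htr N hN ι _ ω f hc a η hη hη1
    have hsp : Spread μ ρ (5 * 2 ^ (d + 1)) d :=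
      TH705.RR.spreadS_group μ ρ hact (fun v => (htr.1 v).measurable) htr.2
    refine le_trans (measure_mono ?_) (H (5 * 2 ^ (d + 1)) (by positivity) G μ ρ
      (fun v => (htr.1 v).measurable) hsp N hN ι ω f hc a η hη hη1)
    intro x hx
    simp only [mem_ofPred_eq] at hx ⊢
    intro hcon
    apply hx
    have hY : 1 ≤ C * (1 + 5 * 2 ^ (d + 1)) / η := by
      rw [le_div_iff₀ hη]
      have h3 : (1 : ℝ) ≤ 1 + 5 * 2 ^ (d + 1) := by
        have : (0 : ℝ) < 5 * 2 ^ (d + 1) := by positivity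
        linarith
      nlinarith
    have hY2 : (C * (1 + 5 * 2 ^ (d + 1)) / η) ^ (1 / q) ≤ C * (1 + 5 * 2 ^ (d + 1)) / η := by
      calc (C * (1 + 5 * 2 ^ (d + 1)) / η) ^ (1 / q)
          ≤ (C * (1 + 5 * 2 ^ (d + 1)) / η) ^ (1 : ℝ) := by
            apply Real.rpow_le_rpow_of_exponent_le hY
            rw [div_le_one (by linarith)]
            exact hq0.le
        _ = _ := Real.rpow_one _
    have hY0 : 0 ≤ (C * (1 + 5 * 2 ^ (d + 1)) / η) ^ (1 / q) := by positivity
    have hNε : N ^ ((d : ℝ) - (d + 1) / q) ≤ N ^ ε := Real.rpow_le_rpow_of_exponent_le hN hq3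
    have hN0 : 0 ≤ N ^ ((d : ℝ) - (d + 1) / q) := Real.rpow_nonneg (by linarith) _
    intro p
    refine ⟨fun hp => ?_, fun hp => ?_⟩
    · refine ((hcon p).1 hp).trans ?_
      apply mul_le_mul' _ le_rfl
      apply ENNReal.ofReal_le_ofReal
      exact mul_le_mul hY2 hNε hN0 (by linarith)
    · refine ((hcon p).2 ((ENNReal.ofReal_le_ofReal hq2).trans hp)).trans ?_
      apply mul_le_mul' _ le_rfl
      exact ENNReal.ofReal_le_ofReal hY2
  refine ⟨?_, ?_, ?_⟩
  · intro α q hα hαd hq
    obtain ⟨C, hC, H⟩ := h1 α q hα hαd hq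
    refine ⟨C, by linarith, ?_⟩
    intro A hA Ω _ P _ g hg hsp
    have h3 := H A hA Ω P g hg hsp
    exact ⟨h3, hAS Ω P g _ _ _ h3⟩
  · intro ε hε
    obtain ⟨C, hC, H⟩ := h2 ε hε
    refine ⟨C, hC, ?_⟩
    intro G _ _ _ _ _ _ μ _ _ ρ hact htr
    have h3 := H G μ ρ hact htr
    exact ⟨h3, hAS G μ ρ _ _ _ h3⟩
  · intro ε hε
    obtain ⟨C, hC, H⟩ := h2 ε hε
    refine ⟨C / (1 / 2), by positivity, ?_⟩
    intro N hN ι _ ω f hc a
    let _ : MeasurableSpace (TH705.RR.On (d + 1)) := borel _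
    have _ : BorelSpace (TH705.RR.On (d + 1)) := ⟨rfl⟩
    let K : TopologicalSpace.PositiveCompacts (TH705.RR.On (d + 1)) := ⊤
    have hK : Measure.haarMeasure K Set.univ = 1 := by
      exact Measure.haarMeasure_self (K₀ := K)
    have _ : IsProbabilityMeasure (Measure.haarMeasure K) := ⟨hK⟩
    have h3 := H (TH705.RR.On (d + 1)) (Measure.haarMeasure K)
      (fun k => TH705.RR.cb (TH705.RR.act (d + 1) k))
      (fun k l v => by
        show TH705.RR.cb (TH705.RR.act (d + 1) (k * l)) v =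
          TH705.RR.cb (TH705.RR.act (d + 1) k) (TH705.RR.cb (TH705.RR.act (d + 1) l) v)
        simp only [TH705.RR.cb_apply, LinearIsometryEquiv.apply_symm_apply]
        rw [map_mul]
        rfl)
      ⟨fun v => by
        show Continuous (fun k => TH705.RR.cb (TH705.RR.act (d + 1) k) v)
        simp only [TH705.RR.cb_apply]
        exact (Pool.Agent.W193.AC.iso d).symm.continuous.comp (TH705.RR.act_cont _),
       fun v w hv hw => by
        obtain ⟨k, hk⟩ := TH705.RR.act_trans (Pool.Agent.W193.AC.iso d v)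
          (Pool.Agent.W193.AC.iso d w) (by rw [LinearIsometryEquiv.norm_map]; exact hv)
          (by rw [LinearIsometryEquiv.norm_map]; exact hw)
        refine ⟨k, ?_⟩
        show TH705.RR.cb (TH705.RR.act (d + 1) k) v = w
        rw [TH705.RR.cb_apply, hk, LinearIsometryEquiv.symm_apply_apply]⟩
      N hN ι ω f hc a (1 / 2) (by norm_num) (by norm_num)
    by_contra hcon
    push Not at hcon
    have h4 : {x : TH705.RR.On (d + 1) | ¬ All (1 + 1 / d + ε) ε (C / (1 / 2)) N ω f
        (move (TH705.RR.cb (TH705.RR.act (d + 1) x)) a)} = Set.univ := by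
      ext x
      simp only [Set.mem_ofPred_eq, Set.mem_univ, iff_true]
      exact hcon _
    rw [h4, hK] at h3
    have h5 : ENNReal.ofReal (1 / 2) < 1 := by
      rw [← ENNReal.ofReal_one]
      exact (ENNReal.ofReal_lt_ofReal_iff one_pos).2 (by norm_num)
    exact absurd h3 (not_le.2 h5)

end Pool.Agent.Results.MP_ac5134_an.RotatedTranslates
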