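import Pool.Agent.TH539.GDual
import Pool.Agent.TH539.SAScale

set_option autoImplicit false
set_option maxHeartbeats 1000000

/-!
# MP_ac5134: the Kakeya inequality in tube form when the level sets have semialgebraic sections

Work in `ℝ^n = ℝ^d × ℝ`, `n = d + 1 ≥ 2`, with its Euclidean norm (`Space d`), and let `P` be the
paraboloid `{(ω, |ω|²)}`, `|ω| ≤ 1`.  The box dual to the cap at `ω` is `box N (nor ω) f 0`: its long
side `N²` is in the direction of the unit normal `nor ω = (-2ω, 1)/√(1+4|ω|²)` and its other sides `N`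
are in the directions of an arbitrary orthonormal frame `f` of the orthogonal complement.

The translates are arbitrary.  Suppose that for some family of parallel hyperplanes (of any direction)
and every `k`, almost every hyperplane of the family meets the set of the points which lie in more than
`k` of the translated boxes in a set which is covered by `K` semialgebraic pieces of degree at most `D`
(in the hyperplane), of total volume at most `M` times its volume; for `D = 0` the pieces are convex sets.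
Then the conjectured comparison with the centred family holds, for every `p` in
`[1, ∞]`, with the constant `C ((1 + log N)^(2n+1) K^(n-1) (D+1)^((n-1)^2) M)^(1/n)`.
-/

open MeasureTheory Set ENNReal

namespace Pool.Agent.Results.MP_ac5134_an.SemialgebraicLevelSets

open Pool.Agent.H810R3.Tub

/-- The caps have centres `ω i` in the closed unit ball, `σ/N`-separated and at least `κ N^d` in
number, and `f i` is an orthonormal frame of the orthogonal complement of the normal at `ω i`. -/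
def Caps {d : ℕ} {ι : Type} [Fintype ι] (σ κ N : ℝ) (ω : ι → Vec d) (f : ι → Fin d → Space d) : Prop :=
  (∀ i, ‖ω i‖ ≤ 1) ∧ (∀ i j, i ≠ j → σ / N ≤ ‖ω i - ω j‖) ∧ κ * N ^ d ≤ (Fintype.card ι : ℝ) ∧
    ∀ i, Orthonormal ℝ (Fin.cons (nor (ω i)) (f i) : Fin (d + 1) → Space d)

/-- The sum of the indicators of the boxes of the caps with centres `a i`. -/
noncomputable def boxSum {d : ℕ} {ι : Type} [Fintype ι] (N : ℝ) (ω : ι → Vec d)
    (f : ι → Fin d → Space d) (a : ι → Space d) (y : Space d) : ℝ :=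
  ∑ i, (box N (nor (ω i)) (f i) (a i)).indicator (fun _ => (1 : ℝ)) y

/-- The inequality of Q1 with constant `C`, for all exponents, for the boxes with centres `a i`. -/
def Ineq {d : ℕ} {ι : Type} [Fintype ι] (C N : ℝ) (ω : ι → Vec d) (f : ι → Fin d → Space d)
    (a : ι → Space d) : Prop :=
  ∀ p : ℝ≥0∞, 1 ≤ p → eLpNorm (boxSum N ω f a) p volume ≤
    ENNReal.ofReal C * eLpNorm (boxSum N ω f 0) p volume

/-- The section of `A` by the hyperplane `{x_0 = t}` in the orthonormal coordinates `Φ`. -/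
def planeSection {d : ℕ} (Φ : Space d ≃ₗᵢ[ℝ] EuclideanSpace ℝ (Fin (d + 1))) (A : Set (Space d))
    (t : ℝ) : Set (Fin d → ℝ) :=
  {y | Φ.symm (WithLp.toLp 2 (Fin.cons t y : Fin (d + 1) → ℝ)) ∈ A}

/-- `B ⊆ ℝ^d` is given by finitely many polynomial inequalities `P i > 0` and `Q j ≥ 0`, the total
degrees of the polynomials adding up to at most `D`. -/
def Basic {d : ℕ} (D : ℕ) (B : Set (Fin d → ℝ)) : Prop :=
  ∃ (a b : ℕ) (P : Fin a → MvPolynomial (Fin d) ℝ) (Q : Fin b → MvPolynomial (Fin d) ℝ),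
    ∑ i, (P i).totalDegree + ∑ j, (Q j).totalDegree ≤ D ∧
    B = {x | (∀ i, 0 < MvPolynomial.eval x (P i)) ∧ ∀ j, 0 ≤ MvPolynomial.eval x (Q j)}

/-- A piece of degree `D`: a basic semialgebraic set of degree at most `D`, and for `D = 0` a convex
set. -/
def Piece {d : ℕ} (D : ℕ) (B : Set (Fin d → ℝ)) : Prop := if D = 0 then Convex ℝ B else Basic D B

/-- `A` is covered by `K` (possibly empty) pieces of degree `D` whose volumes add up to at
most `m`. -/
def Cover {d : ℕ} (K D : ℕ) (m : ℝ≥0∞) (A : Set (Fin d → ℝ)) : Prop :=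
  ∃ B : Fin K → Set (Fin d → ℝ), (∀ j, Piece D (B j)) ∧ A ⊆ ⋃ j, B j ∧ ∑ j, volume (B j) ≤ m

/-- Almost every section of `A` by the hyperplanes `{x_0 = t}` of the orthonormal coordinates `Φ` is
covered by `K` pieces of degree `D` of total volume at most `M` times its volume. -/
def Sections {d : ℕ} (Φ : Space d ≃ₗᵢ[ℝ] EuclideanSpace ℝ (Fin (d + 1))) (K D : ℕ) (M : ℝ)
    (A : Set (Space d)) : Prop :=
  ∀ᵐ t : ℝ, Cover K D (ENNReal.ofReal M * volume (planeSection Φ A t)) (planeSection Φ A t)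

/-- **The Kakeya inequality in tube form, for all `p` in `[1, ∞]`, when the level sets have
semialgebraic sections.** -/
theorem result (d : ℕ) (hd : 1 ≤ d) (σ κ : ℝ) (hσ : 0 < σ) (hσ1 : σ ≤ 1) (hκ : 0 < κ) :
    ∃ C : ℝ, 0 < C ∧ ∀ N : ℝ, 1 ≤ N → ∀ (ι : Type) [Fintype ι] (ω : ι → Vec d)
      (f : ι → Fin d → Space d), Caps σ κ N ω f → ∀ (a : ι → Space d)
      (Φ : Space d ≃ₗᵢ[ℝ] EuclideanSpace ℝ (Fin (d + 1))) (K D : ℕ) (M : ℝ), 1 ≤ K → 1 ≤ M →
        (∀ k : ℕ, Sections Φ K D M {y | (k : ℝ) < boxSum N ω f a y}) →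
        Ineq (C * ((1 + Real.log N) ^ (2 * d + 3) *
          ((K : ℝ) ^ d * ((D : ℝ) + 1) ^ (d ^ 2) * M)) ^ (1 / ((d : ℝ) + 1))) N ω f a := by
  obtain ⟨E₀, hE₀, hmom₀⟩ := Pool.Agent.TF539.Gen.moment d hd σ hσ hσ1
  have hcB := Pool.Agent.TH539.SA.cB_pos d
  set E : ℝ := E₀ * (Pool.Agent.TH539.SA.cB d : ℝ) ^ (1 / (d : ℝ)) with hEdef
  have hE : 0 < E := by positivity
  have hmom : ∀ N : ℝ, 1 ≤ N → ∀ (ι : Type) [Fintype ι] (ω : ι → Vec d)
      (f : ι → Fin d → Space d) (a : ι → Space d)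
      (Φ : Space d ≃ₗᵢ[ℝ] EuclideanSpace ℝ (Fin (d + 1))) (K D : ℕ) (M : ℝ),
      (∀ i, ‖ω i‖ ≤ 1) → (∀ i j, i ≠ j → σ / N ≤ ‖ω i - ω j‖) →
      (∀ i, Orthonormal ℝ (Fin.cons (nor (ω i)) (f i) : Fin (d + 1) → Space d)) →
      1 ≤ K → 1 ≤ M →
      (∀ k : ℕ, Sections Φ K D M {y | (k : ℝ) < boxSum N ω f a y}) →
      ∫⁻ y, Fb N ω f a y ^ (((d:ℝ) + 1) / d) ≤
        ENNReal.ofReal (E * N ^ (2 * (d + 1)) *
          ((1 + Real.log N) ^ (2 * d + 3) *
            ((K : ℝ) ^ d * ((D : ℝ) + 1) ^ (d ^ 2) * M)) ^ (1 / (d:ℝ))) := by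
    intro N hN ι _ ω f a Φ K D M hω hsep hf hK hM hcov
    have hlN : 0 ≤ Real.log N := Real.log_nonneg hN
    have hN0 : 0 < N := by linarith
    have hK1 : (1:ℝ) ≤ (K:ℝ) ^ d := one_le_pow₀ (by exact_mod_cast hK)
    have hlB : (1:ℝ) ≤ (Pool.Agent.TH539.SA.lamB d D : ℝ) := by
      exact_mod_cast Pool.Agent.TH539.SA.one_le_lamB d D
    have hV : Pool.Agent.TH539.SA.Vel d
        (ENNReal.ofReal ((K:ℝ) ^ d * (Pool.Agent.TH539.SA.lamB d D : ℝ)))
        (Pool.Agent.TH539.SA.Cover (d := d) K D) := by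
      rw [ENNReal.ofReal_mul (by positivity), ENNReal.ofReal_pow (by positivity),
        ENNReal.ofReal_natCast, ENNReal.ofReal_natCast]
      exact Pool.Agent.TH539.SA.cover_vel hd K D
    have h := hmom₀ N hN _ _ hV (Pool.Agent.TH539.SA.cover_empty K D)
      (Pool.Agent.TH539.SA.cover_scale K D) ι ω f a Φ M hω hsep hf
      (by calc (1:ℝ) = 1 * 1 := by norm_num
            _ ≤ _ := by gcongr) hM hcov
    refine h.trans (ENNReal.ofReal_le_ofReal ?_)
    have hle : (K:ℝ) ^ d * (Pool.Agent.TH539.SA.lamB d D : ℝ) ≤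
        (Pool.Agent.TH539.SA.cB d : ℝ) * ((K : ℝ) ^ d * ((D : ℝ) + 1) ^ (d ^ 2)) := by
      have h1 : (Pool.Agent.TH539.SA.lamB d D : ℝ) ≤
          (Pool.Agent.TH539.SA.cB d : ℝ) * ((D : ℝ) + 1) ^ (d ^ 2) := by
        have := Pool.Agent.TH539.SA.lamB_le d D
        rw [sq d]
        exact_mod_cast this
      calc (K:ℝ) ^ d * (Pool.Agent.TH539.SA.lamB d D : ℝ) ≤
          (K:ℝ) ^ d * ((Pool.Agent.TH539.SA.cB d : ℝ) * ((D : ℝ) + 1) ^ (d ^ 2)) := by gcongr
        _ = _ := by ring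
    calc E₀ * N ^ (2 * (d + 1)) * ((1 + Real.log N) ^ (2 * d + 3) *
          ((K:ℝ) ^ d * (Pool.Agent.TH539.SA.lamB d D : ℝ) * M)) ^ (1 / (d:ℝ))
        ≤ E₀ * N ^ (2 * (d + 1)) * ((Pool.Agent.TH539.SA.cB d : ℝ) *
          ((1 + Real.log N) ^ (2 * d + 3) *
            ((K : ℝ) ^ d * ((D : ℝ) + 1) ^ (d ^ 2) * M))) ^ (1 / (d:ℝ)) := by
          gcongr ?_ * ?_
          refine Real.rpow_le_rpow (by positivity) ?_ (by positivity)
          calc (1 + Real.log N) ^ (2 * d + 3) *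
                ((K:ℝ) ^ d * (Pool.Agent.TH539.SA.lamB d D : ℝ) * M)
              ≤ (1 + Real.log N) ^ (2 * d + 3) *
                ((Pool.Agent.TH539.SA.cB d : ℝ) * ((K : ℝ) ^ d * ((D : ℝ) + 1) ^ (d ^ 2)) * M) := by
                gcongr
            _ = _ := by ring
      _ = _ := by
          rw [Real.mul_rpow hcB.le (by positivity), hEdef]
          ring
  have hd0 : (0 : ℝ) < d := by exact_mod_cast hd
  have hw0 : 0 < wv d := wv_pos d
  set q : ℝ := ((d : ℝ) + 1) / d with hq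
  have hq1 : 1 < q := by
    rw [hq, lt_div_iff₀ hd0]; linarith
  have hq1' : q - 1 = 1 / d := by
    rw [hq]; field_simp; ring
  set b : ℝ := (1 + (d : ℝ)) ^ (d + 1) * wv d with hb
  have hb0 : 0 < b := by positivity
  set Y : ℝ := 1 + E * b ^ (1 / (d : ℝ)) + E * 2 ^ (d + 1) / wv d with hY
  have hY0 : 1 ≤ Y := by
    have h1 : 0 ≤ E * b ^ (1 / (d : ℝ)) := by positivity
    have h2 : 0 ≤ E * 2 ^ (d + 1) / wv d := by positivity
    linarith
  set C : ℝ := 1 + Y / κ with hC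
  have hC1 : 1 ≤ C := by
    have : 0 ≤ Y / κ := by positivity
    linarith
  have hCκ : Y ≤ C * κ := by
    rw [hC, add_mul, one_mul, div_mul_cancel₀ _ hκ.ne']
    linarith
  have hCq : Y ≤ (C * κ) ^ q := by
    calc Y = Y ^ (1 : ℝ) := (Real.rpow_one _).symm
      _ ≤ Y ^ q := Real.rpow_le_rpow_of_exponent_le hY0 hq1.le
      _ ≤ (C * κ) ^ q := Real.rpow_le_rpow (by linarith) hCκ (by linarith)
  refine ⟨C, by linarith, ?_⟩
  intro N hN ι _ ω f ⟨hω, hsep, hcard, hf⟩ a Φ K D₀ M hK hM hcov p hp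
  have hN0 : 0 < N := by linarith
  have hlN : 0 ≤ Real.log N := Real.log_nonneg hN
  have hc0 : (0 : ℝ) < (Fintype.card ι : ℝ) := lt_of_lt_of_le (by positivity) hcard
  have hne : Nonempty ι := by
    rw [← Fintype.card_pos_iff]
    exact_mod_cast hc0
  have hK1 : (1 : ℝ) ≤ K := by exact_mod_cast hK
  set X : ℝ := (1 + Real.log N) ^ (2 * d + 3) *
    ((K : ℝ) ^ d * ((D₀ : ℝ) + 1) ^ (d ^ 2) * M) with hX
  have hX1 : 1 ≤ X := by
    have h1 : 1 ≤ (1 + Real.log N) ^ (2 * d + 3) := one_le_pow₀ (by linarith)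
    have h2 : 1 ≤ (K : ℝ) ^ d := one_le_pow₀ hK1
    have h3 : (1 : ℝ) ≤ ((D₀ : ℝ) + 1) ^ (d ^ 2) := one_le_pow₀ (by
      have : (0:ℝ) ≤ D₀ := by positivity
      linarith)
    calc (1 : ℝ) = 1 * (1 * 1 * 1) := by norm_num
      _ ≤ X := by rw [hX]; gcongr
  have hX0 : 0 < X := by linarith
  have hQi : ∫⁻ y, Fb N ω f a y ^ q ≤ ENNReal.ofReal (E * N ^ (2 * (d + 1)) * X ^ (1 / (d : ℝ))) :=
    hmom N hN ι ω f a Φ K D₀ M hω hsep hf hK hM hcov
  set D : ℝ := C * X ^ (1 / ((d : ℝ) + 1)) with hD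
  have hD1 : 1 ≤ D := by
    have h1 : 1 ≤ X ^ (1 / ((d : ℝ) + 1)) := Real.one_le_rpow hX1 (by positivity)
    calc (1 : ℝ) = 1 * 1 := by norm_num
      _ ≤ D := by rw [hD]; gcongr
  have hC0 : 0 < C := by linarith
  have hDq : D ^ q = C ^ q * X ^ (1 / (d : ℝ)) := by
    rw [hD, Real.mul_rpow hC0.le (by positivity), ← Real.rpow_mul hX0.le]
    congr 2
    rw [hq]; field_simp
  have hCq' : (C * κ) ^ q = C ^ q * κ ^ q := Real.mul_rpow hC0.le hκ.le
  have hXd : 0 < X ^ (1 / (d : ℝ)) := by positivity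
  refine compare d hN hq1 (Q := E * N ^ (2 * (d + 1)) * X ^ (1 / (d : ℝ))) (by positivity) hD1 ω f hf a
    hQi ?_ ?_ p hp
  · -- first condition
    have hNN : N ^ (2 * (d + 1)) * (N ^ (2 * (d + 1))) ^ (1 / (d : ℝ)) = (N ^ (2 * (d + 1))) ^ q := by
      have h0 : 0 < N ^ (2 * (d + 1)) := by positivity
      have h1 : q = 1 + 1 / (d : ℝ) := by rw [← hq1']; ring
      rw [h1, Real.rpow_add h0, Real.rpow_one]
    have h1 : E * b ^ (1 / (d : ℝ)) ≤ C ^ q * κ ^ q := by
      rw [← hCq']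
      refine le_trans ?_ hCq
      have h2 : 0 ≤ E * 2 ^ (d + 1) / wv d := by positivity
      linarith
    calc E * N ^ (2 * (d + 1)) * X ^ (1 / (d : ℝ)) * (b * N ^ (2 * (d + 1))) ^ (q - 1)
        = (E * b ^ (1 / (d : ℝ))) * X ^ (1 / (d : ℝ)) *
          (N ^ (2 * (d + 1)) * (N ^ (2 * (d + 1))) ^ (1 / (d : ℝ))) := by
          rw [hq1', Real.mul_rpow hb0.le (by positivity)]
          ring
      _ ≤ (C ^ q * κ ^ q) * X ^ (1 / (d : ℝ)) * (N ^ (2 * (d + 1))) ^ q := by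
          rw [hNN]
          gcongr
      _ = D ^ q * ((κ * N ^ d) * N ^ (d + 2)) ^ q := by
          have h2 : (κ * N ^ d) * N ^ (d + 2) = κ * N ^ (2 * (d + 1)) := by ring
          rw [h2, hDq, Real.mul_rpow hκ.le (by positivity)]
          ring
      _ ≤ D ^ q * ((Fintype.card ι : ℝ) * N ^ (d + 2)) ^ q := by
          gcongr
  · -- second condition
    have h1 : E * 2 ^ (d + 1) / wv d ≤ C ^ q * κ ^ q := by
      rw [← hCq']
      refine le_trans ?_ hCq
      have h2 : 0 ≤ E * b ^ (1 / (d : ℝ)) := by positivity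
      linarith
    have h2 : E ≤ (C ^ q * κ ^ q) * (wv d / 2 ^ (d + 1)) := by
      rw [div_le_iff₀ hw0] at h1
      rw [mul_div_assoc', le_div_iff₀ (by positivity)]
      exact h1
    have hNd : (N ^ d) ^ q = N ^ (d + 1) := by
      rw [← Real.rpow_natCast, ← Real.rpow_mul hN0.le, ← Real.rpow_natCast N (d + 1)]
      congr 1
      rw [hq]; push_cast; field_simp
    calc E * N ^ (2 * (d + 1)) * X ^ (1 / (d : ℝ))
        ≤ ((C ^ q * κ ^ q) * (wv d / 2 ^ (d + 1))) * N ^ (2 * (d + 1)) * X ^ (1 / (d : ℝ)) := by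
          gcongr
      _ = D ^ q * ((κ * N ^ d) ^ q * ((N / 2) ^ (d + 1) * wv d)) := by
          rw [hDq, Real.mul_rpow hκ.le (by positivity), hNd, div_pow]
          ring
      _ ≤ D ^ q * ((Fintype.card ι : ℝ) ^ q * ((N / 2) ^ (d + 1) * wv d)) := by
          gcongr

end Pool.Agent.Results.MP_ac5134_an.SemialgebraicLevelSets
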