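import Pool.Agent.TH426.Kt.Final

set_option autoImplicit false
set_option maxHeartbeats 1000000

/-!
# MP_ac5134: the Kakeya inequality in tube form for towers of translates

Work in `ℝ^n = ℝ^d × ℝ`, `n = d + 1`, with its Euclidean norm (`Space d`), and let `P` be the
paraboloid `{(ω, |ω|²)}`, `|ω| ≤ 1`.  The box dual to the cap at `ω` is `box N (nor ω) f 0`: its long
side `N²` is in the direction of the unit normal `nor ω = (-2ω, 1)/√(1+4|ω|²)` and its other sides `N`
are in the directions of an arbitrary orthonormal frame `f` of the orthogonal complement.  The boxes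
are translated so that their axes pass, up to `K N`, through the points `(N² b(ω), 0)`, at heights at
most `S N²`, where `b : ℝ^d → ℝ^d` is a map that may depend on `N`.

A map `b` on a set `B` of directions is a *tower* if it is built from *stages* by two operations:
countable decompositions of `B`, with summable multiplicities, and *skew products*.  In a skew product
the directions are split, `ℝ^d = ℝ^{d1} × ℝ^{d2}` (an arbitrary orthogonal splitting), the first
component of `b(v1, v2)` is `b1(v1)` for a tower `b1` of dimension `d1`, and the second one is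
`b2(v1)(v2)`, where for each `v1` the map `b2(v1)` is a tower of dimension `d2`; its dependence on `v1`
is completely arbitrary (measurable).  The stages are

* arbitrary families of lines in the plane (`d = 1`, any measurable `b`);
* families with at most `M` lines through almost every point, given by a map that is Lipschitz on
  countably many pieces (without any bound for the Lipschitz constants);
* section-monotone families;
* families with Taylor constants `A k` of all orders `k` (in particular smooth families);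
* any family that satisfies the Kakeya maximal estimate with the constants `c ε`, for all `ε`.

For all towers the tube form of the Kakeya inequality holds for every `p` in `[1, ∞]`, with the
constant `C ((1 + M)(1 + K + S)^(d+2) N^ε)^θ`, `θ = min ((n-1)(1-1/p)) (1/p)`, where `C` does not
depend on the tower: it depends on `n`, `ε`, the constants `A` and `c` of the stages and on the
constants `σ`, `κ` of the caps only.
-/

open MeasureTheory Set ENNReal NNReal Metric

namespace Pool.Agent.Results.MP_ac5134_an.TowerTranslates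

/-- Euclidean space `ℝ^d`. -/
abbrev Vec (d : ℕ) : Type := EuclideanSpace ℝ (Fin d)

/-- Euclidean space `ℝ^{d+1}`, written as `ℝ^d × ℝ` with the Euclidean norm. -/
abbrev Space (d : ℕ) : Type := WithLp 2 (Vec d × ℝ)

/-- The unit vector `(v, 1)/√(1+|v|²)`. -/
noncomputable def dir {d : ℕ} (v : Vec d) : Space d :=
  (√(1 + ‖v‖ ^ 2))⁻¹ • WithLp.toLp 2 (v, (1:ℝ))

/-- The unit normal `(-2ω, 1)/√(1+4|ω|²)` of the paraboloid at the point `(ω, |ω|²)`. -/
noncomputable def nor {d : ℕ} (ω : Vec d) : Space d := dir (-(2 : ℝ) • ω)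

/-- The box with centre `a`, side `N²` in the direction `e` and sides `N` in the directions `f j`. -/
def box {d : ℕ} (N : ℝ) (e : Space d) (f : Fin d → Space d) (a : Space d) : Set (Space d) :=
  {y | |inner ℝ e (y - a)| ≤ N ^ 2 / 2 ∧ ∀ j, |inner ℝ (f j) (y - a)| ≤ N / 2}

/-- The caps have centres `ω i` in the closed unit ball, `σ/N`-separated and at least `κ N^d` in
number, and `f i` is an orthonormal frame of the orthogonal complement of the normal at `ω i`. -/
def Caps {d : ℕ} {ι : Type} [Fintype ι] (σ κ N : ℝ) (ω : ι → Vec d) (f : ι → Fin d → Space d) : Prop :=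
  (∀ i, ‖ω i‖ ≤ 1) ∧ (∀ i j, i ≠ j → σ / N ≤ ‖ω i - ω j‖) ∧ κ * N ^ d ≤ (Fintype.card ι : ℝ) ∧
    ∀ i, Orthonormal ℝ (Fin.cons (nor (ω i)) (f i) : Fin (d + 1) → Space d)

/-- The sum of the indicators of the boxes of the caps with centres `a i`. -/
noncomputable def boxSum {d : ℕ} {ι : Type} [Fintype ι] (N : ℝ) (ω : ι → Vec d)
    (f : ι → Fin d → Space d) (a : ι → Space d) (y : Space d) : ℝ :=
  ∑ i, (box N (nor (ω i)) (f i) (a i)).indicator (fun _ => (1 : ℝ)) y

/-- The positions `β i` follow the map `N² b` up to `K N`, on the ball of radius `σ/(2N)` around the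
cap centre `ω i` (intersected with the unit ball). -/
def Follows {d : ℕ} {ι : Type} (σ K N : ℝ) (b : Vec d → Vec d) (ω β : ι → Vec d) : Prop :=
  ∀ i v, ‖v‖ ≤ 1 → ‖v - ω i‖ ≤ σ / (2 * N) → ‖β i - N ^ 2 • b v‖ ≤ K * N

/-- The centre of the box at `ω` whose axis meets the height `0` at `β`; `s` is its height. -/
noncomputable def centre {d : ℕ} (ω β : Vec d) (s : ℝ) : Space d :=
  WithLp.toLp 2 (β + s • (-(2 : ℝ) • ω), s)

/-- The `L^p` norm of the sum of the boxes with the centres `a i` is at most `C X^θ` times that of the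
centred boxes, `θ = min ((n-1)(1-1/p)) (1/p)`, for all `p` in `[1, ∞]`. -/
def Comparison {d : ℕ} {ι : Type} [Fintype ι] (C X N : ℝ) (ω : ι → Vec d) (f : ι → Fin d → Space d)
    (a : ι → Space d) : Prop :=
  ∀ p : ℝ≥0∞, 1 ≤ p → eLpNorm (boxSum N ω f a) p volume ≤
    ENNReal.ofReal (C * X ^ min ((d : ℝ) * (1 - 1 / p.toReal)) (1 / p.toReal)) *
      eLpNorm (boxSum N ω f 0) p volume

/-- The closed tube of length `1` and radius `δ` with centre `a` and axis direction `e`. -/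
def tube {d : ℕ} (δ : ℝ) (e a : Space d) : Set (Space d) :=
  {y | |inner ℝ (y - a) e| ≤ 1 / 2 ∧ ‖(y - a) - (inner ℝ (y - a) e : ℝ) • e‖ ≤ δ}

/-- The point of height `s` on the line `{(b v + s v, s)}`. -/
noncomputable def linePt {d : ℕ} (b : Vec d → Vec d) (v : Vec d) (s : ℝ) : Space d :=
  WithLp.toLp 2 (b v + s • v, s)

/-- Supremum of the averages of `|f|` over the `δ`-tubes with axis on the line number `v`. -/
noncomputable def lineMax {d : ℕ} (δ : ℝ) (b : Vec d → Vec d) (f : Space d → ℝ) (v : Vec d) : ℝ≥0∞ :=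
  ⨆ s : ℝ, (volume (tube δ (dir v) (linePt b v s)))⁻¹ *
    ∫⁻ y in tube δ (dir v) (linePt b v s), ‖f y‖ₑ

/-- The Kakeya maximal estimate for the lines `{(b v + t v, t)}`, `v ∈ B`, at the exponent
`n = d + 1`, for the tubes of all widths `δ < 1`, with the constants `C ε` and the loss `δ^(-ε)`. -/
def Maximal {d : ℕ} (C : ℝ → ℝ≥0∞) (B : Set (Vec d)) (b : Vec d → Vec d) : Prop :=
  ∀ ε : ℝ, 0 < ε → ∀ δ : ℝ, 0 < δ → δ < 1 → ∀ f : Space d → ℝ, Measurable f →
    ∫⁻ v in B, lineMax δ b f v ^ (d + 1)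
      ≤ C ε * ENNReal.ofReal (δ ^ (-ε)) * ∫⁻ y, ‖f y‖ₑ ^ (d + 1)

/-- Up to a null set, `B` is covered by countably many measurable sets on which `b` is Lipschitz. -/
def LipPieces {d : ℕ} (B : Set (Vec d)) (b : Vec d → Vec d) : Prop :=
  ∃ P : ℕ → Set (Vec d), (∀ k, MeasurableSet (P k)) ∧ volume (B \ ⋃ k, P k) = 0 ∧
    ∀ k, ∃ C : ℝ≥0, LipschitzOnWith C b (P k)

/-- For almost every height `t`, almost every point of height `t` lies on at most `M` of the lines
with direction in `B`. -/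
def OverlapLE {d : ℕ} (M : ℕ) (B : Set (Vec d)) (b : Vec d → Vec d) : Prop :=
  ∀ᵐ t : ℝ, ∀ᵐ y : Vec d, {v | v ∈ B ∧ b v + t • v = y}.encard ≤ M

/-- For almost every height `t` the section map `v ↦ b v + t v` becomes monotone on `B` after
composition with an invertible linear map `K` (which may depend on `t`). -/
def SectionMonotone {d : ℕ} (B : Set (Vec d)) (b : Vec d → Vec d) : Prop :=
  ∀ᵐ t : ℝ, ∃ K : Vec d →L[ℝ] Vec d, K.det ≠ 0 ∧
    ∀ v ∈ B, ∀ w ∈ B, 0 ≤ inner ℝ (K ((b v + t • v) - (b w + t • w))) (v - w)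

/-- The polynomial map `ℝ^d → ℝ^d` with components `P i`. -/
noncomputable def polyMap {d : ℕ} (P : Fin d → MvPolynomial (Fin d) ℝ) (v : Vec d) : Vec d :=
  WithLp.toLp 2 (fun i => MvPolynomial.eval (fun j => v j) (P i))

/-- `b` is of class `C^k` on `B` in the sense of Taylor approximation, with constant `A`: at every
`v₀ ∈ B` there is a polynomial map of degree `< k` with `|b v - P v| ≤ A |v - v₀|^k` on `B`. -/
def TaylorClass {d : ℕ} (k : ℕ) (A : ℝ) (B : Set (Vec d)) (b : Vec d → Vec d) : Prop :=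
  ∀ v₀ ∈ B, ∃ P : Fin d → MvPolynomial (Fin d) ℝ, (∀ i, (P i).totalDegree < k) ∧
    ∀ v ∈ B, ‖b v - polyMap P v‖ ≤ A * ‖v - v₀‖ ^ k

/-- The stages: arbitrary families of lines in the plane; families with at most `M` lines through
almost every point, given by a map that is Lipschitz on countably many pieces; section-monotone
families; families with the Taylor constants `A k` of order `k`, `k ≥ 1`; all the families that
satisfy the Kakeya maximal estimate with the constants `c ε d * M`. -/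
inductive Stage (A : ℕ → ℝ) (c : ℝ → ℕ → ℝ≥0) :
    (d : ℕ) → ℝ≥0 → Set (Vec d) → (Vec d → Vec d) → Prop
  | planar {B : Set (Vec 1)} {b : Vec 1 → Vec 1} : Stage A c 1 1 B b
  | overlap {d M : ℕ} {B : Set (Vec d)} {b : Vec d → Vec d} (hM : 1 ≤ M)
      (hL : LipPieces B b) (hO : OverlapLE M B b) : Stage A c d M B b
  | monotone {d : ℕ} {B : Set (Vec d)} {b : Vec d → Vec d} (hS : SectionMonotone B b) :
      Stage A c d 1 B b
  | taylor {d : ℕ} {B : Set (Vec d)} {b : Vec d → Vec d} (h : ∀ k, 1 ≤ k → TaylorClass k (A k) B b) :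
      Stage A c d 1 B b
  | maximal {d : ℕ} {M : ℝ≥0} {B : Set (Vec d)} {b : Vec d → Vec d}
      (h : Maximal (fun ε => c ε d * M) B b) : Stage A c d M B b

/-- The two components of the vector `v` in the orthogonal splitting `Φ`. -/
noncomputable def split {d d1 d2 : ℕ} (Φ : Vec d ≃ₗᵢ[ℝ] WithLp 2 (Vec d1 × Vec d2)) (v : Vec d) :
    Vec d1 × Vec d2 := WithLp.ofLp (Φ v)

/-- The family `b` on `B` is the skew product of the family `b1` on `B1` and of the families `b2 v` on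
`B2 v`, `v ∈ B1`, for the orthogonal splitting `Φ` of `ℝ^d`; all the data are measurable. -/
def IsSkew {d d1 d2 : ℕ} (Φ : Vec d ≃ₗᵢ[ℝ] WithLp 2 (Vec d1 × Vec d2)) (B : Set (Vec d))
    (B1 : Set (Vec d1)) (B2 : Vec d1 → Set (Vec d2)) (b : Vec d → Vec d) (b1 : Vec d1 → Vec d1)
    (b2 : Vec d1 → Vec d2 → Vec d2) : Prop :=
  MeasurableSet {z : Vec d1 × Vec d2 | z.1 ∈ B1 ∧ z.2 ∈ B2 z.1} ∧
    Measurable (Function.uncurry b2) ∧ MeasurableSet B ∧ B ⊆ closedBall 0 1 ∧ Measurable b ∧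
    ∀ v ∈ B, (split Φ v).1 ∈ B1 ∧ (split Φ v).2 ∈ B2 (split Φ v).1 ∧
      split Φ (b v) = (b1 (split Φ v).1, b2 (split Φ v).1 (split Φ v).2)

/-- Towers over a class `𝒮` of stages; `M` is the multiplicity and `B` the set of directions. -/
inductive Tower (𝒮 : (d : ℕ) → ℝ≥0 → Set (Vec d) → (Vec d → Vec d) → Prop) :
    (d : ℕ) → ℝ≥0 → Set (Vec d) → (Vec d → Vec d) → Prop
  | stage {d : ℕ} {M : ℝ≥0} {B : Set (Vec d)} {b : Vec d → Vec d} (hd : 1 ≤ d)
      (hB : MeasurableSet B) (hB1 : B ⊆ closedBall 0 1) (hb : Measurable b) (h : 𝒮 d M B b) :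
      Tower 𝒮 d M B b
  | pieces {d : ℕ} {M : ℝ≥0} {b : Vec d → Vec d} (m : ℕ → ℝ≥0) (B : ℕ → Set (Vec d))
      (h : ∀ j, Tower 𝒮 d (m j) (B j) b) (hM : ∑' j, (m j : ℝ≥0∞) ≤ M) : Tower 𝒮 d M (⋃ j, B j) b
  | skew {d d1 d2 : ℕ} {M1 M2 : ℝ≥0} {B : Set (Vec d)} {B1 : Set (Vec d1)}
      {B2 : Vec d1 → Set (Vec d2)} {b : Vec d → Vec d} {b1 : Vec d1 → Vec d1}
      {b2 : Vec d1 → Vec d2 → Vec d2} (Φ : Vec d ≃ₗᵢ[ℝ] WithLp 2 (Vec d1 × Vec d2))
      (hd1 : 1 ≤ d1) (hd2 : 1 ≤ d2) (hM2 : 0 < M2)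
      (h1 : Tower 𝒮 d1 M1 B1 b1) (h2 : ∀ v ∈ B1, Tower 𝒮 d2 M2 (B2 v) (b2 v))
      (hs : IsSkew Φ B B1 B2 b b1 b2) : Tower 𝒮 d (M1 * M2) B b

open Pool.Agent.TH426.Kt (KTower RegBase BaseBd Rough AllB LMb VanOff Pw win spl)

theorem toK {𝒮 : (d : ℕ) → ℝ≥0 → Set (Vec d) → (Vec d → Vec d) → Prop}
    {𝓑 : (d : ℕ) → ℝ → ℝ≥0 → Set (Vec d) → (Vec d → Vec d) → Prop}
    (h0 : ∀ {d : ℕ} {M : ℝ≥0} {B : Set (Vec d)} {b : Vec d → Vec d}, 1 ≤ d → MeasurableSet B →
      B ⊆ closedBall 0 1 → Measurable b → 𝒮 d M B b → 𝓑 d (d + 1) M B b)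
    {d : ℕ} {M : ℝ≥0} {B : Set (Vec d)} {b : Vec d → Vec d} (h : Tower 𝒮 d M B b) :
    KTower 𝓑 d (d + 1) M B b := by
  induction h with
  | stage hd hB hB1 hb h => exact KTower.base (h0 hd hB hB1 hb h)
  | pieces m B h hM ih => exact KTower.union m B ih hM
  | @skew d d1 d2 M1 M2 B B1 B2 b b1 b2 Φ hd1 hd2 hM2 h1 h2 hs ih1 ih2 =>
    obtain ⟨hB2, hb2, hB, hB1, hb, hbB⟩ := hs
    have hd : (d : ℝ) = d1 + d2 := by
      have := Pool.Agent.TH426.Kt.dim_eq Φ
      exact_mod_cast this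
    have e : (d : ℝ) + 1 = (d1 + 1) + (d2 + 1) - 1 := by rw [hd]; ring
    rw [e]
    exact KTower.skew Φ hd1 hd2 hM2 ih1 ih2 hB2 hb2 hB hB1 hb hbB

/-- The class of stages in the form used by the closure theorem. -/
def GenB (A : ℕ → ℝ) (c : ℝ → ℕ → ℝ≥0)
    (d : ℕ) (p : ℝ) (M : ℝ≥0) (B : Set (Vec d)) (b : Vec d → Vec d) : Prop :=
  AllB univ A d p M B b ∨ (p = d + 1 ∧ 1 ≤ d ∧ MeasurableSet B ∧ B ⊆ closedBall 0 1 ∧
    Measurable b ∧ Maximal (fun ε => c ε d * M) B b)

theorem genB_reg (A : ℕ → ℝ) (c : ℝ → ℕ → ℝ≥0) : RegBase (GenB A c) := by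
  constructor
  · intro d p N B b h
    rcases h with h | h
    · exact (Pool.Agent.TH426.Kt.allB_reg univ A).meas h
    · exact ⟨h.2.2.1, h.2.2.2.1, h.2.2.2.2.1⟩
  · intro d p N B b h
    rcases h with h | h
    · exact (Pool.Agent.TH426.Kt.allB_reg univ A).expo h
    · have h0 : (0 : ℝ) ≤ d := Nat.cast_nonneg d
      rw [h.1]
      constructor <;> linarith

theorem genB_bd (A : ℕ → ℝ) (c : ℝ → ℕ → ℝ≥0) (ε : ℝ) (hε : 0 < ε) :
    ∃ c' : ℕ → ℝ≥0∞, (∀ d, c' d ≠ ∞) ∧ ∀ (δ : ℝ) (k : ℤ), 0 < δ → δ < 1 →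
      BaseBd (GenB A c) (3 * δ) (win univ k) 1 c' (Pw ε δ) 1 := by
  obtain ⟨c2, hc2, hbd⟩ := Pool.Agent.TH426.Kt.allB_bd A ε hε
  set c1 : ℕ → ℝ≥0∞ := fun d => (2 ^ d) ^ ((1 : ℝ) * (d + 1)) * ((3 * 8 ^ d) ^ ((1 : ℝ) * (d + 1)) *
    (c ε d : ℝ≥0∞)) with hc1
  have hc1t : ∀ d, c1 d ≠ ∞ := by
    intro d
    have h0 : (0 : ℝ) ≤ 1 * ((d : ℝ) + 1) := by positivity
    apply ENNReal.mul_ne_top
    · exact ENNReal.rpow_ne_top_of_nonneg h0 (ENNReal.pow_ne_top (by simp))
    · apply ENNReal.mul_ne_top _ ENNReal.coe_ne_top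
      exact ENNReal.rpow_ne_top_of_nonneg h0
        (ENNReal.mul_ne_top (by simp) (ENNReal.pow_ne_top (by simp)))
  refine ⟨fun d => c2 d + c1 d, fun d => ENNReal.add_ne_top.2 ⟨hc2 d, hc1t d⟩, ?_⟩
  intro δ k hδ hδ1 d p M B b hb
  rcases hb with hb | ⟨rfl, hd', hB, hB1, hbm, hS⟩
  · refine (hbd univ δ k MeasurableSet.univ hδ hδ1 hb).mono ?_ subset_rfl
    gcongr
    exact le_self_add
  · have hl : LMb δ univ 1 ((d : ℝ) + 1) (c ε d * M * Pw ε δ ^ d) B b := by
      apply Pool.Agent.TH426.Kt.lmb_of_nat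
      intro f hf _
      refine (hS ε hε δ hδ hδ1 f hf).trans ?_
      have h1 : ENNReal.ofReal (δ ^ (-ε)) ≤ Pw ε δ ^ d :=
        le_self_pow₀ (Pool.Agent.TH426.Kt.one_le_Pw hε hδ hδ1) (by omega)
      gcongr
    have h0 : (0 : ℝ) ≤ d := Nat.cast_nonneg d
    refine (Pool.Agent.TH426.Kt.wb_of_lmb hδ hδ1 MeasurableSet.univ
      zero_le_one (by linarith) (by linarith) hB hB1 hbm hl k).mono ?_ subset_rfl
    rw [ENNReal.one_rpow, mul_one]
    calc (2 ^ d) ^ ((1 : ℝ) * (d + 1)) * ((3 * 8 ^ d) ^ ((1 : ℝ) * (d + 1)) *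
          (c ε d * M * Pw ε δ ^ d)) = c1 d * M * Pw ε δ ^ d := by rw [hc1]; ring
      _ ≤ (c2 d + c1 d) * M * Pw ε δ ^ d := by
          gcongr
          exact le_add_self

/-- **The Kakeya inequality in tube form, for all `p` in `[1, ∞]`, for towers of translates.** -/
theorem result (d : ℕ) (hd : 1 ≤ d) (σ κ : ℝ) (hσ : 0 < σ) (hσ1 : σ ≤ 1) (hκ : 0 < κ) (ε : ℝ)
    (hε : 0 < ε) (A : ℕ → ℝ) (c : ℝ → ℕ → ℝ≥0) :
    ∃ C : ℝ, 0 < C ∧ ∀ (M K S : ℝ≥0) (B : Set (Vec d)) (b : Vec d → Vec d),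
      Tower (Stage A c) d M B b → volume (closedBall (0 : Vec d) 1 \ B) = 0 →
      ∀ N : ℝ, 1 ≤ N → ∀ (ι : Type) [Fintype ι] (ω β : ι → Vec d) (s : ι → ℝ)
        (f : ι → Fin d → Space d), Caps σ κ N ω f → (∀ i, |s i| ≤ S * N ^ 2) → Follows σ K N b ω β →
        Comparison C ((1 + M) * (1 + K + S) ^ (d + 2) * N ^ ε) N ω f
          (fun i => centre (ω i) (β i) (s i)) := by
  obtain ⟨c', hc', hbd⟩ := genB_bd A c ε hε
  have hlt : ∀ N : ℝ, 1 ≤ N → 0 < 1 / (4 * N) ∧ 1 / (4 * N) < 1 := by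
    intro N hN
    refine ⟨by positivity, ?_⟩
    rw [div_lt_one (by positivity)]; linarith
  obtain ⟨C, hC, h⟩ := Pool.Agent.TH426.Kt.tower_compare d hd σ κ hσ hσ1 hκ (genB_reg A c) hc'
    (fun N => (1 / (4 * N)) ^ (-ε)) (fun N => N ^ ε) (4 ^ ε) (by positivity)
    (fun N hN => by have := (hlt N hN).1; positivity)
    (fun N hN => Real.one_le_rpow hN hε.le)
    (fun N hN => by
      rw [one_div, Real.inv_rpow (by positivity), ← Real.rpow_neg (by positivity), neg_neg,
        Real.mul_rpow (by norm_num) (by positivity)])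
    (fun N hN k => hbd _ k (hlt N hN).1 (hlt N hN).2)
  refine ⟨C, hC, ?_⟩
  intro M K S B b hT hB N hN ι _ ω β s f hcaps hs hfol p hp
  obtain ⟨hω, hsep, hcard, hf⟩ := hcaps
  refine h M K S B b (toK ?_ hT) hB N hN ι ω β s f hω hsep hcard hf hs hfol p hp
  intro d M B b hd hB hB1 hb hS
  cases hS with
  | planar => exact Or.inl (AllB.rough (Rough.planar hB hB1 hb))
  | overlap hM hL hO =>
    refine Or.inl (AllB.rough (Rough.overlap hd hM hB hB1 hb hL ?_))
    filter_upwards [hO] with t ht _ using ht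
  | monotone hS =>
    refine Or.inl (AllB.rough (Rough.monotone hd hB hB1 hb ?_))
    filter_upwards [hS] with t ht _ using ht
  | taylor h => exact Or.inl (AllB.smooth hd hB hB1 hb h)
  | maximal h => exact Or.inr ⟨rfl, hd, hB, hB1, hb, h⟩

end Pool.Agent.Results.MP_ac5134_an.TowerTranslates
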